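import Mathlib
import Pool.Agent.Q279.SpiderDefs
import Pool.Agent.Q279.SpiderTree

/-!
# A CPET tree of maximum degree 4 whose coefficient of `e_{(3, 2^14)}` is positive
-/

set_option autoImplicit false

namespace Pool.Agent.Results.MP_fedadc_co.SpiderPositive

open Pool.Agent.Q279.SpiderDefs

/-- There is a tree on 31 vertices (the spider with legs of 15, 12, 2 and 1 vertices) with maximum
degree 4 which has a connected partition of every type and for which the coefficient of
`e_3 e_2 ^ 14` in the chromatic symmetric function equals `7`. -/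
theorem result : ∃ T : SimpleGraph (Fin 31), T.IsTree ∧
    ((∀ v, (T.neighborSet v).ncard ≤ 4) ∧ ∃ v, (T.neighborSet v).ncard = 4) ∧ IsCPET T ∧
    ∀ lam : Nat.Partition 31, lam.parts = 3 ::ₘ Multiset.replicate 14 2 → eCoeff T lam = 7 :=
  ⟨Pool.Agent.Q279.SpiderTree.T, Pool.Agent.Q279.SpiderTree.isTree,
    ⟨Pool.Agent.Q279.SpiderTree.degree_le, 0, Pool.Agent.Q279.SpiderTree.degree_zero⟩,
    Pool.Agent.Q279.SpiderTree.isCPET, Pool.Agent.Q279.SpiderTree.coeff_eq⟩

end Pool.Agent.Results.MP_fedadc_co.SpiderPositive
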